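import Mathlib
import Pool.Agent.Q128.NC.Basic
import Pool.Agent.Q128.NC.Upper
import Pool.Agent.Q128.NC.Lower

/-!
# The Newton covering number of the `d`-cube lies between `3` and `d + 1`
-/

namespace Pool.Agent.Results.MP_a2070a_co.ThreeToSuccessor

open Pool.Agent.Q128.NC

theorem result :
    (∀ d : ℕ, 2 ≤ d → 3 ≤ newton d ∧ newton d ≤ d + 1) ∧
    newton 2 = 3 ∧
    (∀ d : ℕ, 1 ≤ d → IsLeast {n : ℕ | Covers d n} (newton d)) := by
  have hup : ∀ d : ℕ, 1 ≤ d → Covers d (d + 1) := by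
    intro d hd
    obtain ⟨e, rfl⟩ : ∃ e, d = e + 1 := ⟨d - 1, by omega⟩
    exact covers_succ e
  have hleast : ∀ d : ℕ, 1 ≤ d → IsLeast {n : ℕ | Covers d n} (newton d) := fun d hd =>
    ⟨Nat.sInf_mem ⟨d + 1, hup d hd⟩, fun _ hn => Nat.sInf_le hn⟩
  have hmain : ∀ d : ℕ, 2 ≤ d → 3 ≤ newton d ∧ newton d ≤ d + 1 := by
    intro d hd
    refine ⟨?_, (hleast d (by omega)).2 (hup d (by omega))⟩
    by_contra hc
    push Not at hc
    exact not_covers_two hd ((hleast d (by omega)).1.mono (by omega))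
  exact ⟨hmain, le_antisymm (hmain 2 le_rfl).2 (hmain 2 le_rfl).1, hleast⟩

end Pool.Agent.Results.MP_a2070a_co.ThreeToSuccessor
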